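import Pool.Agent.Helper24.HW.Stmts

/-! Module DCN of the project HW: connectedness of the derived rotation system. -/

set_option autoImplicit false

namespace Pool.Agent.Helper51.HW

open Equiv Equiv.Perm Pool.Agent.Helper24.HW Pool.Agent.Helper24.HWPub Pool.Agent.Helper98.Gn

theorem DCN : ST_DCN := by
  intro T _ _ N _ ng ρ cur h τ hτ hne hconn hin hsp
  obtain ⟨s0⟩ := hne
  -- the relation
  let r : (der h).D → (der h).D → Prop := fun u v => v = τ u ∨ v = (der h).α u
  have hτr : ∀ x, Relation.EqvGen r x (τ x) := fun x => Relation.EqvGen.rel _ _ (Or.inl rfl)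
  have hαr : ∀ x, Relation.EqvGen r x ((der h).α x) :=
    fun x => Relation.EqvGen.rel _ _ (Or.inr rfl)
  have hnat : ∀ (n : ℕ) x, Relation.EqvGen r x ((τ ^ n) x) := by
    intro n
    induction n with
    | zero => intro x; exact Relation.EqvGen.refl x
    | succ n ih =>
      intro x
      rw [pow_succ', Perm.mul_apply]
      exact (ih x).trans _ _ _ (hτr _)
  have hsc : ∀ x y, SameCycle τ x y → Relation.EqvGen r x y := by
    rintro x y ⟨i, rfl⟩
    rcases Int.eq_nat_or_neg i with ⟨n, rfl | rfl⟩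
    · rw [zpow_natCast]
      exact hnat n x
    · have h1 := hnat n ((τ ^ (-(n : ℤ))) x)
      have h2 : (τ ^ n) ((τ ^ (-(n : ℤ))) x) = x := by
        rw [← Perm.mul_apply, zpow_neg, zpow_natCast, mul_inv_cancel, Perm.one_apply]
      rw [h2] at h1
      exact h1.symm
  -- special darts
  let A : ZMod N → T → (der h).D := fun g t => Sum.inl (g, t)
  let B : ZMod N → {t // ρ t = t} → (der h).D := fun g s => Sum.inr ((g, s), false)
  let C : ZMod N → {t // ρ t = t} → (der h).D := fun g s => Sum.inr ((g, s), true)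
  have hBA : ∀ g s, Relation.EqvGen r (B g s) (A g s.1) := by
    intro g s
    have h1 := hτr (B g s)
    rw [hin (B g s) g rfl] at h1
    exact h1
  have hCB : ∀ g s, Relation.EqvGen r (C g s) (B g s) := fun g s => hαr (C g s)
  have hCC : ∀ g g' s, Relation.EqvGen r (C g s) (C g' s) :=
    fun g g' s => hsc _ _ (hsp (C g s) (C g' s) s rfl rfl)
  let Q : T → Prop := fun t => ∀ g, Relation.EqvGen r (A g t) (C 0 s0)
  have hQ0 : Q s0.1 := fun g =>
    (hBA g s0).symm.trans _ _ _ ((hCB g s0).symm.trans _ _ _ (hCC g 0 s0))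
  have hα1 : ∀ g t, Relation.EqvGen r (A g t) (A (g + cur t) (ng t)) := fun g t => hαr (A g t)
  have hng : ∀ t, Q t → Q (ng t) := by
    intro t ht g
    have h1 := hα1 g (ng t)
    rw [h.ng2] at h1
    exact h1.trans _ _ _ (ht _)
  have hng' : ∀ t, Q (ng t) → Q t := by
    intro t ht
    have := hng _ ht
    rwa [h.ng2] at this
  have hρ : ∀ t, ρ t ≠ t → ∀ g, Relation.EqvGen r (A g (ng t)) (A g (ρ t)) := by
    intro t ht g
    have h1 := hτr (A g (ng t))
    rw [hin (A g (ng t)) g rfl] at h1
    have h2 : (der h).σ (A g (ng t)) = A g (ρ t) := by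
      have h3 : ¬ ρ (ng (ng t)) = ng (ng t) := by rwa [h.ng2]
      have h4 : (der h).σ (A g (ng t)) = A g (ρ (ng (ng t))) := dif_neg h3
      rw [h4, h.ng2]
    rw [h2] at h1
    exact h1
  have hρ1 : ∀ t, Q t ↔ Q (ρ t) := by
    intro t
    by_cases ht : ρ t = t
    · rw [ht]
    · constructor
      · intro hq g
        exact (hρ t ht g).symm.trans _ _ _ (hng t hq g)
      · intro hq
        exact hng' t fun g => (hρ t ht g).trans _ _ _ (hq g)
  have hng1 : ∀ t, Q t ↔ Q (ng t) := fun t => ⟨hng t, hng' t⟩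
  have hQ : ∀ x y : T, Relation.EqvGen (fun u v => v = ρ u ∨ v = ng u) x y → (Q x ↔ Q y) := by
    intro x y hxy
    induction hxy with
    | rel x y hr =>
      rcases hr with rfl | rfl
      · exact hρ1 x
      · exact hng1 x
    | refl x => exact Iff.rfl
    | symm x y _ ih => exact ih.symm
    | trans x y z _ _ ih1 ih2 => exact ih1.trans ih2
  have hall : ∀ t, Q t := fun t => (hQ s0.1 t (hconn _ _)).1 hQ0
  have hend : ∀ x : (der h).D, Relation.EqvGen r x (C 0 s0) := by
    rintro (⟨g, t⟩ | ⟨⟨g, s⟩, b⟩)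
    · exact hall t g
    · cases b
      · exact (hBA g s).trans _ _ _ (hall s.1 g)
      · exact (hCB g s).trans _ _ _ ((hBA g s).trans _ _ _ (hall s.1 g))
  intro x y
  exact (hend x).trans _ _ _ (hend y).symm

end Pool.Agent.Helper51.HW
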