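import Pool.Agent.Helper24.HW.Stmts

/-! Module KK of the project HW: labelled maps from the comb-ladder. -/

set_option autoImplicit false

namespace Pool.Agent.Helper51.HW

open Equiv Equiv.Perm Pool.Agent.Helper24.HW Pool.Agent.Helper24.HWPub Pool.Agent.Helper98.Gn

theorem KK (hCORE : ST_CORE) (hCG : ST_CG) (hCM : ST_CM) (hCNK : ST_CNK) (hFIX : ST_FIX)
    (hGCD : ST_GCD) (hNG : ST_NG) : ST_KK := by
  intro k j m hk hm hmk hpar hj ε hε hle
  have : NeZero k := ⟨hk.ne'⟩
  have hinv := (hNG k j).1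
  obtain ⟨t, ht⟩ := hCM k j m hinv hm hmk hpar
  have hcg := hCG k j t hinv
  obtain ⟨-, hcard, hsum⟩ := hFIX k j t
  have hne : Nonempty {x : TT k j // rot k j t x = x} := by
    have h1 : 0 < Nat.card {x : TT k j // rot k j t x = x} := by omega
    exact (Nat.card_pos_iff.1 h1).1
  have hgcd := hGCD k j hj
  have hS : ∑ s : {x : TT k j // rot k j t x = x},
      (((6 * k + 4 * j + 5) / addOrderOf (cc k j s.1) : ℕ) : ℤ) ≤ 327 := by
    rw [← Nat.cast_sum, hsum (fun x => (6 * k + 4 * j + 5) / addOrderOf (cc k j x))]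
    exact_mod_cast hgcd
  obtain ⟨M, hM1, hM2, hM3, hM4, hM5⟩ := hCORE (TT k j) (6 * k + 4 * j + 5)
    (hinv.toPerm (ngf k j)) (rot k j t) (cc k j) hcg hne (hCNK k j t) ε hε (by
      rw [ht, hcard]
      push_cast at hS ⊢
      nlinarith [hle, hS])
  refine ⟨ZMod (6 * k + 4 * j + 5) ⊕ {x : TT k j // rot k j t x = x}, inferInstance, M, ?_, hM1,
    hM2, hM3, ?_, hM5⟩
  · rw [Fintype.card_sum, ZMod.card, ← Nat.card_eq_fintype_card, hcard]
    omega
  · intro A
    rw [← ht]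
    exact hM4 A

end Pool.Agent.Helper51.HW
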